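import Pool.Agent.Helper85.KL.Sizes
import Pool.Agent.Helper45.FQ.Loc6
import Pool.Agent.Helper9.FQ.U1
import Pool.Agent.Helper83.FQ.BusC

/-!
# Project FQ (MP_0f6f3f_an), layer SZ: sizes of `V_g 1`, `g ∈ G₁`

`SizeMap.large`: `f i t → ∞` as `t → ∞`, uniformly in `i`. `node_large`: if the gap `u` of `a` is large, so is the gap `u` of most `b` (the other gaps are arbitrary). `mass_le_rows`: masses of `V_g 1` (`g ∈ G₁`) from the rows `pE E l`, uniformly in
`g` and in the set. `mass_one`, `mass_two`, `mass_large`: sizes of `V_g 1` for all `g` with one, two large gaps. `sizes_of`: helper83's `Sizes`. `mu_lev`, `mass_lev`: the elements `w^t l`, `l` in the centralizer of the flat of the node `u`.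
-/

set_option autoImplicit false
set_option linter.unusedSectionVars false

open MeasureTheory Filter Topology
open scoped ENNReal Pointwise ComplexConjugate

namespace Pool.Agent.Helper42.SZ

open Pool.Agent.Helper84 Pool.Agent.Helper84.GN Pool.Agent.Helper84.GN.S3 Pool.Agent.Helper84.GN.S3.X
open Pool.Agent.Helper84.NI Pool.Agent.Helper84.GVN Pool.Agent.Helper90.RK
open Pool.Agent.Helper96.RK Pool.Agent.Helper66.FR Pool.Agent.Helper84.FR Pool.Agent.Helper55.FR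
open Pool.Agent.Helper85.KL Pool.Agent.Helper85.FQ Pool.Agent.Helper84.GDL Pool.Agent.Helper45.FQ Pool.Agent.Helper78.BM

section Abs

variable {A B I : Type} {p : A → B → ℝ} {a1 : A → I → ℝ} {b1 : B → I → ℝ}

/-- The sizes tend to infinity. -/
theorem size_large [Fintype I] {f f' : I → ℝ → ℝ} (f0 : ∀ i t, 0 ≤ f i t)
    (hl : ∀ C : ℝ, ∃ D : ℝ, 0 ≤ D ∧ ∀ i s t, 0 ≤ s → 0 ≤ t → |s - t| ≤ C → |f' i s - f' i t| ≤ D)
    (hi : ∃ C : ℝ, 0 ≤ C ∧ ∀ i t, 0 ≤ t → |f' i (f i t) - t| ≤ C) (R : ℝ) :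
    ∃ L : ℝ, 0 ≤ L ∧ ∀ i t, L ≤ t → R ≤ f i t := by
  obtain ⟨D, hD0, hD⟩ := hl |R|
  obtain ⟨C, hC0, hC⟩ := hi
  refine ⟨C + D + (∑ i, |f' i 0|) + 1, by positivity, fun i t ht => ?_⟩
  by_contra hcon
  push Not at hcon
  have h1 : |f' i 0| ≤ ∑ i, |f' i 0| := Finset.single_le_sum (f := fun i => |f' i 0|) (fun i _ => abs_nonneg _) (Finset.mem_univ i)
  have h0 : 0 ≤ ∑ i, |f' i 0| := (abs_nonneg _).trans h1
  have ht0 : 0 ≤ t := by linarith
  have h2 := hD i (f i t) 0 (f0 i t) le_rfl (by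
    rw [sub_zero, abs_of_nonneg (f0 i t)]
    exact hcon.le.trans (le_abs_self R))
  have h3 := hC i t ht0
  have h4 := le_abs_self (f' i 0)
  rw [abs_le] at h2 h3
  linarith [h2.2, h3.1]

/-- The sizes are bounded on bounded sets. -/
theorem size_bdd [Fintype I] {f : I → ℝ → ℝ}
    (hl : ∀ C : ℝ, ∃ D : ℝ, 0 ≤ D ∧ ∀ i s t, 0 ≤ s → 0 ≤ t → |s - t| ≤ C → |f i s - f i t| ≤ D) (R : ℝ) :
    ∃ M : ℝ, 0 ≤ M ∧ ∀ i t, 0 ≤ t → t ≤ R → f i t ≤ M := by
  obtain ⟨D, hD0, hD⟩ := hl |R|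
  refine ⟨(∑ i, |f i 0|) + D, by positivity, fun i t h0 ht => ?_⟩
  have h1 : |f i 0| ≤ ∑ i, |f i 0| := Finset.single_le_sum (f := fun i => |f i 0|) (fun i _ => abs_nonneg _) (Finset.mem_univ i)
  have h2 := hD i t 0 h0 le_rfl (by
    rw [sub_zero, abs_of_nonneg h0]
    exact ht.trans (le_abs_self R))
  rw [abs_le] at h2
  linarith [le_abs_self (f i 0), h2.2]

/-- **The gap of the node.** If the gap `u` of `a` is large, so is the gap `u` of most `b`; the other gaps of `a` are arbitrary. -/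
theorem node_large [Fintype I] (hp : DS p) (ha : ∀ a v, 0 ≤ a1 a v) (hfb : ∀ C : ℝ, {b | ∀ v, b1 b v ≤ C}.Finite) {f f' : I → ℝ → ℝ}
    (hf : SizeMap p a1 b1 f) (hl : ∀ C : ℝ, ∃ D : ℝ, 0 ≤ D ∧ ∀ i s t, 0 ≤ s → 0 ≤ t → |s - t| ≤ C → |f' i s - f' i t| ≤ D)
    (hi : ∃ C : ℝ, 0 ≤ C ∧ ∀ i t, 0 ≤ t → |f' i (f i t) - t| ≤ C) {ε : ℝ} (hε : 0 < ε) (R : ℝ) :
    ∃ L : ℝ, ∀ u a, L ≤ a1 a u → mass (p a) {b | b1 b u < R} ≤ ε := by
  classical
  obtain ⟨L₁, C₁, h1⟩ := hf.one (ε / 2) (by positivity)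
  obtain ⟨L₂, C₂, h2⟩ := hf.two ε hε
  obtain ⟨L₃, hL₃, h3⟩ := size_large hf.nonneg hl hi (R + |C₂|)
  obtain ⟨M, hM, h4⟩ := size_bdd hf.lip (max L₂ 0)
  have hT := hfb (max R (M + |C₁|))
  -- the exceptional set
  have h5 : ∀ b : B, {a | ε / (2 * (hT.toFinset.card + 1)) < p a b}.Finite := by
    intro b
    have h6 := (hp.col b).sum.summable.tendsto_cofinite_zero
    have h7 : ∀ᶠ a in cofinite, p a b < ε / (2 * (hT.toFinset.card + 1)) :=
      h6.eventually (gt_mem_nhds (by positivity))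
    refine (Filter.eventually_cofinite.1 h7).subset fun a hb => ?_
    exact not_lt.2 (le_of_lt hb)
  have h6 : (⋃ b ∈ hT.toFinset, {a | ε / (2 * (hT.toFinset.card + 1)) < p a b}).Finite :=
    Set.Finite.biUnion hT.toFinset.finite_toSet fun b _ => h5 b
  obtain ⟨L₄, hL₄⟩ : ∃ L₄ : ℝ, ∀ a ∈ (⋃ b ∈ hT.toFinset, {a | ε / (2 * (hT.toFinset.card + 1)) < p a b}), ∀ u, a1 a u ≤ L₄ := by
    refine ⟨∑ a ∈ h6.toFinset, ∑ u, |a1 a u|, fun a h u => ?_⟩
    refine (le_abs_self _).trans ((Finset.single_le_sum (f := fun u => |a1 a u|) (fun _ _ => abs_nonneg _) (Finset.mem_univ u)).trans ?_)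
    exact Finset.single_le_sum (f := fun a => ∑ u, |a1 a u|) (fun _ _ => Finset.sum_nonneg fun _ _ => abs_nonneg _) (h6.mem_toFinset.2 h)
  refine ⟨|L₁| + |L₂| + L₃ + |L₄| + 1, fun u a hu => ?_⟩
  have n1 := abs_nonneg L₁
  have n2 := abs_nonneg L₂
  have n4 := abs_nonneg L₄
  by_cases hc : ∃ v, u ≠ v ∧ L₂ ≤ a1 a v
  · obtain ⟨v, huv, hv⟩ := hc
    refine ((hp.row a).mass_mono ?_).trans (h2 u v a huv (by linarith [le_abs_self L₂]) hv)
    intro b hb
    refine ⟨u, ?_⟩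
    have h7 := h3 u (a1 a u) (by linarith)
    have hb' : b1 b u < R := hb
    rw [abs_sub_comm]
    refine lt_of_lt_of_le ?_ (le_abs_self _)
    linarith [le_abs_self C₂]
  · push Not at hc
    have h7 := h1 u a (by linarith [le_abs_self L₁])
    have hnm : a ∉ (⋃ b ∈ hT.toFinset, {a | ε / (2 * (hT.toFinset.card + 1)) < p a b}) := fun hm => by
      have := hL₄ a hm u
      linarith [le_abs_self L₄]
    have h8 : mass (p a) (hT.toFinset : Set B) ≤ ε / 2 := by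
      unfold mass
      rw [tsum_eq_sum (s := hT.toFinset) fun b hb => Set.indicator_of_notMem (by simpa using hb) _]
      calc ∑ b ∈ hT.toFinset, (hT.toFinset : Set B).indicator (p a) b ≤ ∑ b ∈ hT.toFinset, ε / (2 * (hT.toFinset.card + 1)) := by
            refine Finset.sum_le_sum fun b hb => ?_
            rw [Set.indicator_of_mem (by simpa using hb)]
            by_contra hcon
            exact hnm (Set.mem_biUnion (x := b) hb (not_le.1 hcon))
        _ ≤ ε / 2 := by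
            rw [Finset.sum_const, nsmul_eq_mul, mul_div_assoc', div_le_div_iff₀ (by positivity) (by norm_num)]
            nlinarith
    refine ((hp.row a).mass_mono (T := {b | ∃ i, i ≠ u ∧ C₁ < |b1 b i - f i (a1 a i)|} ∪ (hT.toFinset : Set B)) ?_).trans
      (((hp.row a).mass_union _ _).trans (by linarith))
    intro b hb
    have hb' : b1 b u < R := hb
    by_cases hb2 : ∃ i, i ≠ u ∧ C₁ < |b1 b i - f i (a1 a i)|
    · exact Or.inl hb2
    · right
      push Not at hb2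
      rw [Finset.mem_coe, Set.Finite.mem_toFinset]
      intro v
      by_cases hv : v = u
      · rw [hv]
        exact hb'.le.trans (le_max_left _ _)
      · have h9 := hb2 v hv
        have h10 := h4 v (a1 a v) (ha a v) ((hc v (Ne.symm hv)).le.trans (le_max_left _ _))
        rw [abs_le] at h9
        exact le_trans (by linarith [le_abs_self C₁, h9.2]) (le_max_right _ _)

end Abs

section Row

variable {G Λ : Type} [Group G] [Group Λ] [Countable Λ] {E : Emb Λ G}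

/-- The mass of a row. -/
theorem norm_row (l : Λ) (s : Set G) : ‖ind ℂ s (cf (E.U l))‖ ^ 2 = mass (pE E l) s := by
  classical
  have h1 := lv_hasSum (ind ℂ s (cf (E.U l)) : L2 G)
  rw [← h1.tsum_eq]
  unfold mass
  refine tsum_congr fun k => ?_
  rw [ind_apply]
  by_cases hk : k ∈ s
  · rw [if_pos hk, Set.indicator_of_mem hk]
    rfl
  · rw [if_neg hk, Set.indicator_of_notMem hk, norm_zero]
    norm_num

end Row

section Main

variable {G1 X G Λ I : Type} [Group G1] [TopologicalSpace G1] [IsTopologicalGroup G1] [SecondCountableTopology G1] [LocallyCompactSpace G1]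
  [T2Space G1] [MeasurableSpace G1] [BorelSpace G1] [MeasurableSpace X] [MulAction G1 X] [MeasurableConstSMul G1 X] [Group G] [Group Λ] [Countable Λ]
  {μ : Measure X} [SMulInvariantMeasure G1 X μ] [IsProbabilityMeasure μ] {a : Cocy G1 X Λ} {E : Emb Λ G} {j : Λ →* G1} {hm : Measure G1} {σ : X → G1}

/-- **Masses from the rows**, uniformly in `g` and in the set. -/
theorem mass_le_rows [Countable I] (h : HC μ a.a j hm σ) (S : LG G1 I) {ε : ℝ} (hε : 0 < ε) :
    ∃ C : ℝ, 0 ≤ C ∧ ∀ (g : G1) (s : Set G) (e : ℝ), 0 ≤ e → (∀ l : Λ, (∀ i, |S.gp (j l) i - S.gp g i| ≤ C) → mass (pE E l) s ≤ e) →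
      Pool.Agent.Helper9.FQ.mass μ a E s g ≤ e + ε := by
  obtain ⟨C, hC, h1⟩ := coc_gap h S hε
  refine ⟨C, hC, fun g s e he hs => ?_⟩
  set B : Set X := {x | ∃ i, C < |S.gp (j (a.a g x)) i - S.gp g i|} with hBdef
  have hB : MeasurableSet B := by
    have e1 : B = ⋃ l ∈ {l : Λ | ∃ i, C < |S.gp (j l) i - S.gp g i|}, {x | a.a g x = l} := by
      ext x
      simp [hBdef]
    rw [e1]
    exact MeasurableSet.biUnion (Set.to_countable _) fun l _ => a.meas g l
  have h2 : ∀ x, ‖ind ℂ s (cf (E.U (a.a g x)))‖ ^ 2 ≤ e + B.indicator (fun _ => (1 : ℝ)) x := by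
    intro x
    by_cases hx : x ∈ B
    · rw [Set.indicator_of_mem hx]
      have := Pool.Agent.Helper9.FQ.ind_cf_le_one (E := E) s (a.a g x)
      linarith
    · rw [Set.indicator_of_notMem hx, add_zero, norm_row]
      refine hs _ fun i => ?_
      by_contra hcon
      exact hx ⟨i, not_le.1 hcon⟩
  have h3 : Integrable (fun x => ‖ind ℂ s (cf (E.U (a.a g x)))‖ ^ 2) μ :=
    Pool.Agent.Helper9.FQ.mass_integrable (μ := μ) (w := fun l => ‖ind ℂ s (cf (E.U l))‖ ^ 2)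
      (fun l => Pool.Agent.Helper9.FQ.abs_ind_cf s l) g
  have h4 : Integrable (fun x => e + B.indicator (fun _ => (1 : ℝ)) x) μ := (integrable_const _).add ((integrable_const _).indicator hB)
  rw [Pool.Agent.Helper9.FQ.mass_int]
  refine (integral_mono h3 h4 h2).trans ?_
  rw [integral_add (integrable_const _) ((integrable_const _).indicator hB), integral_const, integral_indicator hB, setIntegral_const]
  simp only [probReal_univ, smul_eq_mul, mul_one]
  linarith [h1 g]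

variable {b1 : G → I → ℝ} {f f' : I → ℝ → ℝ}

/-- **Sizes, one large gap.** -/
theorem mass_one [Countable I] (h : HC μ a.a j hm σ) (S : LG G1 I) (hs : SizeMap (pE E) (fun l => S.gp (j l)) b1 f) {ε : ℝ} (hε : 0 < ε) :
    ∃ L C : ℝ, ∀ u g, L ≤ S.gp g u → Pool.Agent.Helper9.FQ.mass μ a E {k | ∃ i, i ≠ u ∧ C < |b1 k i - f i (S.gp g i)|} g ≤ ε := by
  obtain ⟨C₁, hC₁, h1⟩ := mass_le_rows (μ := μ) (E := E) h S (half_pos hε)
  obtain ⟨L₂, C₂, h2⟩ := hs.one (ε / 2) (half_pos hε)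
  obtain ⟨D, hD0, hD⟩ := hs.lip C₁
  refine ⟨L₂ + C₁, C₂ + D, fun u g hu => ?_⟩
  have h3 := h1 g {k | ∃ i, i ≠ u ∧ C₂ + D < |b1 k i - f i (S.gp g i)|} (ε / 2) (half_pos hε).le fun l hl => ?_
  · linarith
  · have hPW : PW (pE E l) := ⟨fun k => pE_nonneg _ k, pE_row _⟩
    refine (hPW.mass_mono ?_).trans (h2 u l (by linarith [(abs_le.1 (hl u)).1]))
    rintro k ⟨i, hi, hk⟩
    refine ⟨i, hi, ?_⟩
    have h4 := hD i (S.gp (j l) i) (S.gp g i) (S.nonneg _ _) (S.nonneg _ _) (hl i)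
    have h5 := abs_sub_le (b1 k i) (f i (S.gp (j l) i)) (f i (S.gp g i))
    linarith

/-- **Sizes, two large gaps.** -/
theorem mass_two [Countable I] (h : HC μ a.a j hm σ) (S : LG G1 I) (hs : SizeMap (pE E) (fun l => S.gp (j l)) b1 f) {ε : ℝ} (hε : 0 < ε) :
    ∃ L C : ℝ, ∀ u v g, u ≠ v → L ≤ S.gp g u → L ≤ S.gp g v →
      Pool.Agent.Helper9.FQ.mass μ a E {k | ∃ i, C < |b1 k i - f i (S.gp g i)|} g ≤ ε := by
  obtain ⟨C₁, hC₁, h1⟩ := mass_le_rows (μ := μ) (E := E) h S (half_pos hε)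
  obtain ⟨L₂, C₂, h2⟩ := hs.two (ε / 2) (half_pos hε)
  obtain ⟨D, hD0, hD⟩ := hs.lip C₁
  refine ⟨L₂ + C₁, C₂ + D, fun u v g huv hu hv => ?_⟩
  have h3 := h1 g {k | ∃ i, C₂ + D < |b1 k i - f i (S.gp g i)|} (ε / 2) (half_pos hε).le fun l hl => ?_
  · linarith
  · have hPW : PW (pE E l) := ⟨fun k => pE_nonneg _ k, pE_row _⟩
    refine (hPW.mass_mono ?_).trans (h2 u v l huv (by linarith [(abs_le.1 (hl u)).1]) (by linarith [(abs_le.1 (hl v)).1]))
    rintro k ⟨i, hk⟩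
    refine ⟨i, ?_⟩
    have h4 := hD i (S.gp (j l) i) (S.gp g i) (S.nonneg _ _) (S.nonneg _ _) (hl i)
    have h5 := abs_sub_le (b1 k i) (f i (S.gp (j l) i)) (f i (S.gp g i))
    linarith

/-- **The gap of the node is large.** -/
theorem mass_large [Fintype I] (hE : FullE E) (h : HC μ a.a j hm σ) (S : LG G1 I) (hs : SizeMap (pE E) (fun l => S.gp (j l)) b1 f)
    (hfb : ∀ C : ℝ, {b | ∀ v, b1 b v ≤ C}.Finite)
    (hl : ∀ C : ℝ, ∃ D : ℝ, 0 ≤ D ∧ ∀ i s t, 0 ≤ s → 0 ≤ t → |s - t| ≤ C → |f' i s - f' i t| ≤ D)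
    (hi : ∃ C : ℝ, 0 ≤ C ∧ ∀ i t, 0 ≤ t → |f' i (f i t) - t| ≤ C) {ε : ℝ} (hε : 0 < ε) (R : ℝ) :
    ∃ L : ℝ, ∀ u g, L ≤ S.gp g u → Pool.Agent.Helper9.FQ.mass μ a E {k | b1 k u < R} g ≤ ε := by
  obtain ⟨C₁, hC₁, h1⟩ := mass_le_rows (μ := μ) (E := E) h S (half_pos hε)
  obtain ⟨L₂, h2⟩ := node_large (ds_pE hE) (fun l v => S.nonneg (j l) v) hfb hs hl hi (half_pos hε) R
  refine ⟨L₂ + C₁, fun u g hu => ?_⟩
  have h3 := h1 g {k | b1 k u < R} (ε / 2) (half_pos hε).le fun l hl' =>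
    h2 u l (by linarith [(abs_le.1 (hl' u)).1])
  linarith

/-- helper83's form. -/
theorem sizes_of [Countable I] [Nontrivial I] (h : HC μ a.a j hm σ) (S : LG G1 I) (hs : SizeMap (pE E) (fun l => S.gp (j l)) b1 f) :
    Pool.Agent.Helper83.FQ.Sizes μ a E S.gp b1 f := by
  intro ε hε
  obtain ⟨L, C, h1⟩ := mass_two (μ := μ) (E := E) h S hs (ε := ε ^ 2) (by positivity)
  obtain ⟨u, v, huv⟩ := exists_pair_ne I
  refine ⟨L, C, fun g hg => ?_⟩
  have h2 := h1 u v g huv (hg u) (hg v)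
  unfold Pool.Agent.Helper9.FQ.mass at h2
  exact le_of_sq_le_sq h2 hε.le

end Main

section Levi

variable {G1 : Type} [Group G1] [TopologicalSpace G1] {ι : Type} [Fintype ι] [DecidableEq ι] (D : GD G1 ι)

/-- The gaps of `w^t l`, `l` in the centralizer of the flat of the node `u`. -/
theorem mu_lev (u : ι) (l : G1) (hl : ∀ t : ℝ, l * D.ea (Pi.single u t) = D.ea (Pi.single u t) * l) :
    ∃ c : ι → ℝ, (∀ i, i ≠ u → 0 ≤ c i) ∧ ∀ t : ℝ, 0 ≤ c u + t → D.mu (D.ea (Pi.single u t) * l) = c + Pi.single u t := by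
  obtain ⟨k1, hk1, k2, hk2, c, hc, he, hcom⟩ := D.lev {u} l fun c hc => by
    have e : c = Pi.single u (c u) := by
      funext i
      by_cases hi : i = u
      · rw [hi, Pi.single_eq_same]
      · rw [Pi.single_eq_of_ne hi]
        exact hc i hi
    rw [e]
    exact hl _
  refine ⟨c, fun i hi => hc i hi, fun t ht => ?_⟩
  have h1 := (hcom (Pi.single u t) fun i hi => by
    have hi' : i ≠ u := hi
    simp [hi']).1
  have e : D.ea (Pi.single u t) * l = k1 * D.ea (c + Pi.single u t) * k2 := by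
    rw [he, D.ea_add, D.ea_comm, ← mul_assoc, ← mul_assoc, ← h1]
    group
  rw [e]
  refine D.mu_kak hk1 hk2 fun i => ?_
  by_cases hi : i = u
  · rw [hi, Pi.add_apply, Pi.single_eq_same]
    exact ht
  · rw [Pi.add_apply, Pi.single_eq_of_ne hi, add_zero]
    exact hc i hi

variable [IsTopologicalGroup G1] [SecondCountableTopology G1] [LocallyCompactSpace G1]
  [T2Space G1] [MeasurableSpace G1] [BorelSpace G1] {X G Λ : Type} [MeasurableSpace X] [MulAction G1 X] [MeasurableConstSMul G1 X] [Group G] [Group Λ] [Countable Λ]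
  {μ : Measure X} [SMulInvariantMeasure G1 X μ] [IsProbabilityMeasure μ] {a : Cocy G1 X Λ} {E : Emb Λ G} {j : Λ →* G1} {hm : Measure G1} {σ : X → G1}
  {b1 : G → ι → ℝ} {f : ι → ℝ → ℝ}

/-- **Sizes of `w^t l`**: the constant `C` does not depend on `l`. -/
theorem mass_lev (h : HC μ a.a j hm σ) (hs : SizeMap (pE E) (fun l => D.mu (j l)) b1 f) {ε : ℝ} (hε : 0 < ε) :
    ∃ C : ℝ, ∀ (u : ι) (l : G1) (_ : ∀ t : ℝ, l * D.ea (Pi.single u t) = D.ea (Pi.single u t) * l) (c : ι → ℝ) (T : ℝ)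
      (_ : ∀ t : ℝ, T ≤ t → D.mu (D.ea (Pi.single u t) * l) = c + Pi.single u t),
      ∀ᶠ t : ℝ in atTop, Pool.Agent.Helper9.FQ.mass μ a E {k | ∃ i, i ≠ u ∧ C < |b1 k i - f i (c i)|} (D.ea (Pi.single u t) * l) ≤ ε := by
  obtain ⟨L, C, h1⟩ := mass_one (μ := μ) (E := E) h (LGof D) hs hε
  refine ⟨C, fun u l _ c T hc => ?_⟩
  filter_upwards [eventually_ge_atTop T, eventually_ge_atTop (L - c u)] with t ht ht2
  have h2 := hc t ht
  have h3 : ∀ i, i ≠ u → (LGof D).gp (D.ea (Pi.single u t) * l) i = c i := fun i hi => by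
    change D.mu (D.ea (Pi.single u t) * l) i = c i
    rw [h2, Pi.add_apply, Pi.single_eq_of_ne hi, add_zero]
  have h4 : L ≤ (LGof D).gp (D.ea (Pi.single u t) * l) u := by
    change L ≤ D.mu (D.ea (Pi.single u t) * l) u
    rw [h2, Pi.add_apply, Pi.single_eq_same]
    linarith
  have h5 := h1 u _ h4
  have e : {k | ∃ i, i ≠ u ∧ C < |b1 k i - f i ((LGof D).gp (D.ea (Pi.single u t) * l) i)|} = {k | ∃ i, i ≠ u ∧ C < |b1 k i - f i (c i)|} := by
    ext k
    constructor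
    · rintro ⟨i, hi, hk⟩
      rw [h3 i hi] at hk
      exact ⟨i, hi, hk⟩
    · rintro ⟨i, hi, hk⟩
      rw [← h3 i hi] at hk
      exact ⟨i, hi, hk⟩
  rwa [e] at h5

end Levi

end Pool.Agent.Helper42.SZ
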